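import Pool.Agent.Run7.h504.RM14
import Pool.Agent.Run7.h504.RM5

/-!
# Products with displaced values of the functions of Moebius and Liouville in almost all short intervals

Used from the starting files: the correlations of aperiodic functions with values `1` and `-1` at linear forms with short
parameters (`MP_4a7640_nt.AperiodicClusters`, part (1)), the inequality of van der Corput (`H469R2.NK.Vdc`), the bilinear
estimate for families of shifts (`TH823.EL.FamU`, `TH823.PS`), the additive energy of polynomial values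
(`H373R2.T7.energy_poly`) and the divergence of the sum of the reciprocals of the primes in a residue class
(`Helper793.Cube.Main`).
-/

set_option autoImplicit false

namespace Pool.Agent.Results.MP_663568_nt.DisplacedShortIntervals

open Finset

/-- Multiplicative functions with values `1` and `-1` (the value at `0` is arbitrary). -/
def IsMultSign (g : ℕ → ℝ) : Prop :=
  (∀ n, g n = 1 ∨ g n = -1) ∧ ∀ m n : ℕ, m.Coprime n → g (m * n) = g m * g n

/-- `𝔻(g, χ) = ∞` for every Dirichlet character `χ`. -/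
def NonPretentious (g : ℕ → ℝ) : Prop :=
  ∀ (q : ℕ) (χ : DirichletCharacter ℂ q), 1 ≤ q →
    ¬ Summable fun p : Nat.Primes =>
      (1 - (((g p : ℝ) : ℂ) * (starRingEnd ℂ) (χ ((p : ℕ) : ZMod q))).re) / ((p : ℕ) : ℝ)

/-- `f` is a multiplicative function `g` with values `1` and `-1` and infinite distance to all Dirichlet characters, or the
product of such a function `g` and of the indicator function of the squarefree integers. -/
def Aperiodic (f : ℕ → ℂ) : Prop :=
  ∃ g : ℕ → ℝ, IsMultSign g ∧ NonPretentious g ∧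
    ((∀ n, f n = ((g n : ℝ) : ℂ)) ∨ ∀ n, f n = if Squarefree n then ((g n : ℝ) : ℂ) else 0)

/-- The function of Moebius. -/
noncomputable def mu (n : ℕ) : ℂ := ((ArithmeticFunction.moebius n : ℤ) : ℂ)

/-- The function of Liouville. -/
noncomputable def lam (n : ℕ) : ℂ := (-1 : ℂ) ^ (ArithmeticFunction.cardFactors n)

/-- The function `f` on the integers, extended by zero: `f(z)` for `z ≥ 1`, zero for `z ≤ 0`. -/
noncomputable def ext (f : ℕ → ℂ) (z : ℤ) : ℂ := if 1 ≤ z then f z.toNat else 0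

/-- The additive energy of order `p` of the family `a 1, ..., a x`: the number of the solutions of
`a (u 1) + ... + a (u p) = a (v 1) + ... + a (v p)`. -/
def energy (p x : ℕ) (a : ℕ → ℤ) : ℕ :=
  (((Fintype.piFinset fun _ : Fin p => Icc 1 x) ×ˢ (Fintype.piFinset fun _ : Fin p => Icc 1 x)).filter
    (fun q => ∑ i, a (q.1 i) = ∑ i, a (q.2 i))).card

/-- The integers `a 1, ..., a x` are at most `B N` in absolute value, and their additive energy of some order `p ≤ h`
is at most `C x ^ (2 p) / N`. -/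
def Spread (h B : ℕ) (C : ℝ) (N x : ℕ) (a : ℕ → ℤ) : Prop :=
  (∀ m ∈ Icc 1 x, |a m| ≤ B * N) ∧ ∃ p : ℕ, 1 ≤ p ∧ p ≤ h ∧ (energy p x a : ℝ) * N ≤ C * (x : ℝ) ^ (2 * p)

open Classical in
/-- The number of the vectors `m` with `1 ≤ m i ≤ x i` for all `i` which have the property `E`. -/
noncomputable def num {k : ℕ} (x : Fin k → ℕ) (E : (Fin k → ℕ) → Prop) : ℝ :=
  (((Fintype.piFinset fun i => Icc 1 (x i)).filter E).card : ℝ)

/-- For ALL lengths `H₀ ≤ H ≤ N` and all real `θ`, the sums of `G (n + t) e (t θ)` over `1 ≤ t ≤ H` are at most `ε H` in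
absolute value, on the average over `n ≤ N`. -/
def SmallInShortIntervals (H₀ : ℕ) (ε : ℝ) (N : ℕ) (G : ℕ → ℂ) : Prop :=
  ∀ H : ℕ, H₀ ≤ H → H ≤ N → ∀ θ : ℝ,
    ∑ n ∈ Icc 1 N, ‖∑ t ∈ Icc 1 H, G (n + t) * Complex.exp (2 * Real.pi * Complex.I * (((t : ℝ) * θ : ℝ) : ℂ))‖ ≤ ε * H * N

/-- Let `h`, `B`, `C`, `k`, `W` and `ε > 0` be fixed, let `Ap` be a set of indices `i < k`, and let `f i`, `i < k`, be
functions with values in the unit disc: for `i ∈ Ap` they are aperiodic in the sense of `Aperiodic`, for example the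
function of Moebius or of Liouville, and for the other `i` they are ARBITRARY. Let the slopes `α i` be fixed,
`1 ≤ α i ≤ B` for `i ∈ Ap`. There is `H₀` such that the following holds for all `N ≥ H₀`. Let `b i 1, ..., b i (x i)` be
families of integers: arbitrary ones for `i ∉ Ap`; for `i ∈ Ap` the members are at most `B N` in absolute value and the
additive energy of some order `p ≤ h` is at most `C x ^ (2 p) / N`, where `x` is the length. Let `w 1, ..., w W` be
ARBITRARY weights of modulus at most one. For all the vectors `m` with `1 ≤ m i ≤ x i` up to a proportion of `ε` of them,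
all the products `G (n) = w l (n) ∏ j ∈ I, f j (α j n + b j (m j))`, where `I` contains some `i ∈ Ap`, satisfy
`∑ n ≤ N, |∑ t ≤ H, G (n + t) e (t θ)| ≤ ε H N` for all real `θ` and all `H₀ ≤ H ≤ N`.
The functions of Moebius and of Liouville are aperiodic, and the condition on the families holds, for some `h`, `B` and `C`,
for the values at `1, ..., x` of every nonconstant polynomial with integer coefficients and a positive leading
coefficient, whenever `x` to the power of the degree has the order of magnitude of `N`. -/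
theorem result (h B k W : ℕ) (C ε : ℝ) (hε : 0 < ε) (Ap : Finset (Fin k)) :
    (∀ f : Fin k → ℕ → ℂ, (∀ i n, ‖f i n‖ ≤ 1) → (∀ i ∈ Ap, Aperiodic (f i)) →
      ∀ α : Fin k → ℕ, (∀ i ∈ Ap, 1 ≤ α i ∧ α i ≤ B) →
      ∃ H₀ : ℕ, ∀ N : ℕ, H₀ ≤ N →
        ∀ (x : Fin k → ℕ) (b : Fin k → ℕ → ℤ), (∀ i ∈ Ap, Spread h B C N (x i) (b i)) →
        ∀ w : Fin W → ℕ → ℂ, (∀ l n, ‖w l n‖ ≤ 1) →
        num x (fun m => ¬ ∀ l, ∀ I : Finset (Fin k), (∃ i ∈ I, i ∈ Ap) →
          SmallInShortIntervals H₀ ε N (fun n => w l n * ∏ j ∈ I, ext (f j) (α j * n + b j (m j)))) ≤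
          ε * ∏ i, (x i : ℝ)) ∧
    (Aperiodic mu ∧ Aperiodic lam) ∧
    (∀ g : Polynomial ℤ, 1 ≤ g.natDegree → 0 < g.leadingCoeff → ∀ D : ℕ, ∃ (h' B' : ℕ) (C' : ℝ), ∀ N x : ℕ,
      N ≤ D * x ^ g.natDegree → x ^ g.natDegree ≤ D * N → Spread h' B' C' N x (fun m => g.eval (m : ℤ))) := by
  classical
  refine ⟨?_, ⟨?_, ?_⟩, fun g hd hl D => ?_⟩
  · intro f hf hA α hα
    have hS : ∀ i ∈ Ap, Pool.Agent.Run7.h504.RM.SupD (∅ : Finset (Fin 1))
        (Pool.Agent.Run7.h504.RM.cubeF (α i) (f i)) := by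
      intro i hi
      obtain ⟨g, hg, hap, hfg⟩ := hA i hi
      rcases hfg with hfg | hfg
      · exact Pool.Agent.Run7.h504.RM.supD_cube1 (α i) (hα i hi).1 (f i) ⟨g, hg, hap, hfg⟩
      · have h1 := Pool.Agent.Run7.h504.RM.supD_cube1 (α i) (hα i hi).1 (fun n => ((g n : ℝ) : ℂ))
          ⟨g, hg, hap, fun _ => rfl⟩
        have h2 := Pool.Agent.Run7.h504.RM.supD_sqf (α i) (fun n => ((g n : ℝ) : ℂ)) (fun n => by
          rw [Complex.norm_real]
          rcases hg.1 n with h | h <;> rw [h] <;> simp) h1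
        have h3 : f i = fun n => if Squarefree n then ((g n : ℝ) : ℂ) else 0 := by
          funext n
          exact hfg n
        rw [h3]
        exact h2
    obtain ⟨N₀, h0⟩ := Pool.Agent.Run7.h504.RM.tupS (h + 1) B W k (by omega) C ε hε f hf α Ap
      (fun i hi => ⟨(hα i hi).1, (hα i hi).2, hS i hi⟩)
    refine ⟨N₀, fun N hN x b hb w hw => ?_⟩
    exact h0 N hN x b (fun i hi => by
      obtain ⟨h1, p, _, hp2, he⟩ := hb i hi
      exact ⟨h1, Pool.Agent.Run7.h504.RM.energy_order (by omega) he⟩) w hw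
  · obtain ⟨a1, a2⟩ := Pool.Agent.Run7.h504.RM.lam_sign
    exact ⟨_, a1, a2, Or.inr fun n => Pool.Agent.Run7.h504.RM.mu_sqf n⟩
  · obtain ⟨a1, a2⟩ := Pool.Agent.Run7.h504.RM.lam_sign
    refine ⟨_, a1, a2, Or.inl fun n => ?_⟩
    unfold lam
    push_cast
    rfl
  · obtain ⟨h', hh, B', C', _, h1⟩ := Pool.Agent.Run7.h504.RM.poly_energy g hd hl D
    exact ⟨h', B', C', fun N x hx1 hx2 => ⟨(h1 N x hx1 hx2).1, h', hh, le_rfl, (h1 N x hx1 hx2).2⟩⟩

end Pool.Agent.Results.MP_663568_nt.DisplacedShortIntervals
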